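import Mathlib

/-!
# Lines and disjoint balls: offsets

`off p u c` is the vector from `c` to the foot of `c` on the line `p + ℝ u` (`‖u‖ = 1`).
-/

set_option autoImplicit false

namespace Pool.Agent.H40E9.LT

open scoped RealInnerProductSpace

variable {V : Type*} [NormedAddCommGroup V] [InnerProductSpace ℝ V]

/-- the vector from `c` to its foot on the line through `p` with the unit direction `u` -/
noncomputable def off (p u c : V) : V := (p - c) - ⟪u, p - c⟫ • u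

lemma inner_off {u : V} (hu : ‖u‖ = 1) (p c : V) : ⟪u, off p u c⟫ = 0 := by
  unfold off
  rw [inner_sub_right, inner_smul_right, real_inner_self_eq_norm_sq, hu]
  ring

lemma off_inner {u : V} (hu : ‖u‖ = 1) (p c : V) : ⟪off p u c, u⟫ = 0 := by
  rw [real_inner_comm]; exact inner_off hu p c

lemma off_sub (p u x y : V) : off p u x - off p u y = (y - x) - ⟪u, y - x⟫ • u := by
  unfold off
  have h : ⟪u, y - x⟫ = ⟪u, p - x⟫ - ⟪u, p - y⟫ := by
    rw [← inner_sub_right]; congr 1; abel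
  rw [h, sub_smul]
  abel

lemma norm_sub_proj {u : V} (hu : ‖u‖ = 1) (z : V) :
    ‖z - ⟪u, z⟫ • u‖ ^ 2 = ‖z‖ ^ 2 - ⟪u, z⟫ ^ 2 := by
  rw [norm_sub_sq_real, norm_smul, hu, inner_smul_right, real_inner_comm, Real.norm_eq_abs, mul_one,
    sq_abs]
  ring

lemma norm_off {u : V} (hu : ‖u‖ = 1) (p c : V) :
    ‖off p u c‖ ^ 2 = ‖p - c‖ ^ 2 - ⟪u, p - c⟫ ^ 2 := norm_sub_proj hu _

lemma norm_off_sub {u : V} (hu : ‖u‖ = 1) (p x y : V) :
    ‖off p u x - off p u y‖ ^ 2 = ‖y - x‖ ^ 2 - ⟪u, y - x⟫ ^ 2 := by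
  rw [off_sub]; exact norm_sub_proj hu _

lemma norm_off_add {u : V} (hu : ‖u‖ = 1) (p x y : V) :
    ‖off p u x + off p u y‖ ^ 2 = 2 * ‖off p u x‖ ^ 2 + 2 * ‖off p u y‖ ^ 2 -
      (‖y - x‖ ^ 2 - ⟪u, y - x⟫ ^ 2) := by
  have h := parallelogram_law_with_norm ℝ (off p u x) (off p u y)
  have h2 := norm_off_sub hu p x y
  nlinarith [h, h2]

/-- `y - x` in terms of the offsets -/
lemma sub_eq (p u x y : V) : y - x = (off p u x - off p u y) + ⟪u, y - x⟫ • u := by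
  rw [off_sub]; abel

/-- the distance of two hit points is controlled by the gap -/
lemma dist_le_gap {u : V} (hu : ‖u‖ = 1) (p x y : V) {r : ℝ} (hx : ‖off p u x‖ ≤ r)
    (hy : ‖off p u y‖ ≤ r) : ‖y - x‖ ^ 2 ≤ 4 * r ^ 2 + ⟪u, y - x⟫ ^ 2 := by
  have h := norm_off_sub hu p x y
  have h1 : ‖off p u x - off p u y‖ ≤ 2 * r := (norm_sub_le _ _).trans (by linarith)
  have h2 : ‖off p u x - off p u y‖ ^ 2 ≤ (2 * r) ^ 2 :=
    pow_le_pow_left₀ (norm_nonneg _) h1 2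
  nlinarith

lemma add_lt_gap {u : V} (hu : ‖u‖ = 1) (p x y : V) (hx : ‖off p u x‖ ≤ 1)
    (hy : ‖off p u y‖ ≤ 1) (h : 2 < ‖y - x‖) :
    ‖off p u x + off p u y‖ ^ 2 < ⟪u, y - x⟫ ^ 2 := by
  rw [norm_off_add hu]
  have h1 : ‖off p u x‖ ^ 2 ≤ 1 := by
    have := pow_le_pow_left₀ (norm_nonneg _) hx 2; simpa using this
  have h2 : ‖off p u y‖ ^ 2 ≤ 1 := by
    have := pow_le_pow_left₀ (norm_nonneg _) hy 2; simpa using this
  nlinarith

lemma add_lt_gap' {u : V} (hu : ‖u‖ = 1) (p x y : V) (hx : ‖off p u x‖ ≤ 1)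
    (hy : ‖off p u y‖ ≤ 1) (h : 2 < ‖y - x‖) :
    ‖off p u x + off p u y‖ < |⟪u, y - x⟫| := by
  have := add_lt_gap hu p x y hx hy h
  rw [← sq_abs ⟪u, y - x⟫] at this
  exact lt_of_pow_lt_pow_left₀ 2 (abs_nonneg _) this

lemma gap_ne {u : V} (hu : ‖u‖ = 1) (p x y : V) (hx : ‖off p u x‖ ≤ 1)
    (hy : ‖off p u y‖ ≤ 1) (h : 2 < ‖y - x‖) : ⟪u, y - x⟫ ≠ 0 := by
  intro h0
  have := add_lt_gap' hu p x y hx hy h
  rw [h0, abs_zero] at this
  exact absurd this (not_lt.mpr (norm_nonneg _))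

/-- three balls met by a line: the first and the last are at distance at least `√2` along the line -/
lemma gap_two {u : V} (hu : ‖u‖ = 1) (p x y z : V) (hx : ‖off p u x‖ ≤ 1)
    (hy : ‖off p u y‖ ≤ 1) (hz : ‖off p u z‖ ≤ 1) (hxy : 2 < ‖y - x‖) (hyz : 2 < ‖z - y‖)
    (hxz : 2 < ‖z - x‖) (h1 : 0 ≤ ⟪u, y - x⟫) (h2 : 0 ≤ ⟪u, z - y⟫) :
    2 < ⟪u, z - x⟫ ^ 2 := by
  have e : ⟪u, z - x⟫ = ⟪u, y - x⟫ + ⟪u, z - y⟫ := by
    rw [← inner_add_right]; congr 1; abel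
  have a1 := add_lt_gap' hu p x y hx hy hxy
  have a2 := add_lt_gap' hu p y z hy hz hyz
  rw [abs_of_nonneg h1] at a1
  rw [abs_of_nonneg h2] at a2
  have a3 : ‖off p u x - off p u z‖ < ⟪u, z - x⟫ := by
    have : off p u x - off p u z = (off p u x + off p u y) - (off p u y + off p u z) := by abel
    rw [this, e]
    exact (norm_sub_le _ _).trans_lt (by linarith)
  have a4 := norm_off_sub hu p x z
  have a5 : ‖off p u x - off p u z‖ ^ 2 < ⟪u, z - x⟫ ^ 2 :=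
    pow_lt_pow_left₀ a3 (norm_nonneg _) two_ne_zero
  nlinarith

end Pool.Agent.H40E9.LT
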