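import Pool.Agent.H40E9.LT.Uniq

/-!
# A line tangent to disjoint balls can be improved if there is another line in the same order
-/

set_option autoImplicit false

namespace Pool.Agent.H40E9.LT

open scoped RealInnerProductSpace

variable {V : Type*} [NormedAddCommGroup V] [InnerProductSpace ℝ V]

lemma improve_parallel (A : Finset V) {ρ : ℝ} {p u q : V}
    (hA : ∀ c ∈ A, ‖off p u c‖ = ρ) (hA' : ∀ c ∈ A, ‖off q u c‖ ≤ ρ)
    (hne : ∀ t : ℝ, q ≠ p + t • u) :
    ∃ a b : V, ⟪u, b⟫ = 0 ∧ ∀ c ∈ A, Lf p u a b c < 0 := by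
  set a : V := (q - p) - ⟪u, q - p⟫ • u with ha
  have ha0 : a ≠ 0 := by
    intro h
    apply hne ⟪u, q - p⟫
    rw [ha, sub_eq_zero] at h
    rw [← h]; abel
  refine ⟨a, 0, by simp, fun c hc => ?_⟩
  have e : off q u c = off p u c + a := by
    rw [ha]
    unfold off
    have : ⟪u, q - c⟫ = ⟪u, p - c⟫ + ⟪u, q - p⟫ := by
      rw [← inner_add_right]; congr 1; abel
    rw [this, add_smul]
    abel
  have h1 := hA' c hc
  rw [e] at h1
  have h2 : ‖off p u c + a‖ ^ 2 ≤ ρ ^ 2 := pow_le_pow_left₀ (norm_nonneg _) h1 2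
  rw [norm_add_sq_real, hA c hc] at h2
  have h3 : 0 < ‖a‖ ^ 2 := by positivity
  unfold Lf
  rw [inner_zero_right]
  linarith

/-- **First order improvement.** -/
theorem improve (A : Finset V) (hS : Sep (A : Set V)) {ρ : ℝ} (hρ0 : 0 < ρ) (hρ1 : ρ ≤ 1)
    {p u q v : V} (hu : ‖u‖ = 1) (hv : ‖v‖ = 1)
    (hA : ∀ c ∈ A, ‖off p u c‖ = ρ) (hA' : ∀ c ∈ A, ‖off q v c‖ ≤ ρ)
    (hord : ∀ x ∈ A, ∀ y ∈ A, x ≠ y → 0 < ⟪u, y - x⟫ * ⟪v, y - x⟫)
    (hne : v = u → ∀ t : ℝ, q ≠ p + t • u) :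
    ∃ a b : V, ⟪u, b⟫ = 0 ∧ ∀ c ∈ A, Lf p u a b c < 0 := by
  classical
  by_cases hvu : v = u
  · subst hvu
    exact improve_parallel A hA hA' (hne rfl)
  -- at most one ball
  by_cases hcard : A.card ≤ 1
  · rcases Finset.card_le_one_iff_subset_singleton.mp hcard with ⟨c₀, hc₀⟩
    refine ⟨-off p u c₀, 0, by simp, fun c hc => ?_⟩
    have : c = c₀ := by simpa using hc₀ hc
    subst this
    unfold Lf
    rw [inner_neg_right, inner_zero_right, real_inner_self_eq_norm_sq, hA c hc]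
    have : 0 < ρ ^ 2 := by positivity
    linarith
  obtain ⟨x₀, hx₀, y₀, hy₀, hxy₀⟩ := Finset.one_lt_card.mp (not_le.mp hcard)
  have hvu' : v ≠ -u := by
    rintro rfl
    have := hord x₀ hx₀ y₀ hy₀ hxy₀
    rw [inner_neg_left] at this
    nlinarith [sq_nonneg ⟪u, y₀ - x₀⟫]
  -- the angle
  set C := ⟪u, v⟫ with hC
  have hC1 : C < 1 := by
    refine lt_of_le_of_ne (inner_le_one hu hv) ?_
    intro h
    exact hvu ((inner_eq_one_iff_of_norm_eq_one hu hv).mp h).symm
  have hC2 : -1 < C := by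
    have h1 := inner_le_one (u := -u) (v := v) (by rw [norm_neg]; exact hu) hv
    rw [inner_neg_left] at h1
    refine lt_of_le_of_ne (by linarith) ?_
    intro h
    apply hvu'
    have : ⟪-u, v⟫ = 1 := by rw [inner_neg_left, ← hC, ← h]; ring
    exact ((inner_eq_one_iff_of_norm_eq_one (by rw [norm_neg]; exact hu) hv).mp this).symm
  set θ := Real.arccos C with hθ
  have hθ0 : 0 < θ := Real.arccos_pos.mpr hC1
  have hθπ : θ < Real.pi := by
    refine lt_of_le_of_ne (Real.arccos_le_pi C) ?_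
    intro h
    have := Real.cos_arccos hC2.le hC1.le
    rw [← hθ, h, Real.cos_pi] at this
    linarith
  have hcos : Real.cos θ = C := Real.cos_arccos hC2.le hC1.le
  set S := Real.sin θ with hSdef
  have hS0 : 0 < S := Real.sin_pos_of_pos_of_lt_pi hθ0 hθπ
  have hCS : C ^ 2 + S ^ 2 = 1 := by rw [← hcos]; exact Real.cos_sq_add_sin_sq θ
  -- the orthonormal frame
  set e : V := S⁻¹ • (v - C • u) with he
  have hue : ⟪u, e⟫ = 0 := by
    rw [he, inner_smul_right, inner_sub_right, inner_smul_right, real_inner_self_eq_norm_sq, hu,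
      ← hC]
    ring
  have hve : v = C • u + S • e := by
    rw [he, smul_smul, mul_inv_cancel₀ hS0.ne', one_smul]; abel
  have hen : ‖e‖ ^ 2 = 1 := by
    have h1 : ‖v - C • u‖ ^ 2 = S ^ 2 := by
      have : ‖v - ⟪u, v⟫ • u‖ ^ 2 = _ := norm_sub_proj hu v
      rw [← hC] at this
      rw [this, hv]; linarith
    rw [he, norm_smul, mul_pow, h1, norm_inv, Real.norm_eq_abs, inv_pow, sq_abs]
    field_simp
  have hee : ⟪e, e⟫ = 1 := by rw [real_inner_self_eq_norm_sq]; exact hen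
  have huu : ⟪u, u⟫ = 1 := by rw [real_inner_self_eq_norm_sq, hu]; norm_num
  have heu : ⟪e, u⟫ = 0 := by rw [real_inner_comm]; exact hue
  -- the motion out of the plane
  set D₀ := q - p with hD₀
  set k : V := D₀ - ⟪u, D₀⟫ • u - ⟪e, D₀⟫ • e with hk
  have huk : ⟪u, k⟫ = 0 := by
    rw [hk, inner_sub_right, inner_sub_right, inner_smul_right, inner_smul_right, huu, hue]; ring
  have hek : ⟪e, k⟫ = 0 := by
    rw [hk, inner_sub_right, inner_sub_right, inner_smul_right, inner_smul_right, hee, heu]; ring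
  -- coordinates of a ball
  set s : V → ℝ := fun c => ⟪u, p - c⟫ with hs
  set η : V → ℝ := fun c => ⟪e, p - c⟫ with hη
  set τ : V → V := fun c => (p - c) - s c • u - η c • e with hτ
  set η' : V → ℝ := fun c => -S * ⟪u, q - c⟫ + C * ⟪e, q - c⟫ with hη'
  have huτ : ∀ c, ⟪u, τ c⟫ = 0 := by
    intro c
    simp only [hτ, inner_sub_right, inner_smul_right, huu, hue]
    simp only [hs, inner_sub_right]; ring
  have heτ : ∀ c, ⟪e, τ c⟫ = 0 := by
    intro c
    simp only [hτ, inner_sub_right, inner_smul_right, hee, heu]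
    simp only [hη, inner_sub_right]; ring
  have hoff : ∀ c, off p u c = η c • e + τ c := by
    intro c
    simp only [hτ, hs]; unfold off; abel
  have hn1 : ∀ c, ‖off p u c‖ ^ 2 = η c ^ 2 + ‖τ c‖ ^ 2 := by
    intro c
    rw [hoff, norm_add_sq_real, norm_smul, mul_pow, hen, inner_smul_left, heτ]
    simp
  have hn2 : ∀ c, ‖off q v c‖ ^ 2 = η' c ^ 2 + ‖τ c + k‖ ^ 2 := by
    intro c
    rw [norm_off hv]
    have e1 : q - c = ⟪u, q - c⟫ • u + ⟪e, q - c⟫ • e + (τ c + k) := by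
      have h1 : ⟪u, q - c⟫ = s c + ⟪u, D₀⟫ := by
        simp only [hs]; rw [← inner_add_right]; congr 1; rw [hD₀]; abel
      have h2 : ⟪e, q - c⟫ = η c + ⟪e, D₀⟫ := by
        simp only [hη]; rw [← inner_add_right]; congr 1; rw [hD₀]; abel
      rw [h1, h2, hk, hτ, add_smul, add_smul, hD₀]
      simp only
      abel
    have e2 : ‖q - c‖ ^ 2 = ⟪u, q - c⟫ ^ 2 + ⟪e, q - c⟫ ^ 2 + ‖τ c + k‖ ^ 2 := by
      conv_lhs => rw [e1]
      rw [← real_inner_self_eq_norm_sq, ← real_inner_self_eq_norm_sq]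
      simp only [inner_add_left, inner_add_right, inner_smul_left, inner_smul_right, huu, hue, heu,
        hee, huk, hek, huτ, heτ, real_inner_comm u k, real_inner_comm e k, real_inner_comm u (τ c),
        real_inner_comm e (τ c)]
      simp
      ring
    have e3 : ⟪v, q - c⟫ = C * ⟪u, q - c⟫ + S * ⟪e, q - c⟫ := by
      conv_lhs => rw [hve]
      rw [inner_add_left, inner_smul_left, inner_smul_left]; simp
    rw [e2, e3]
    simp only [hη']
    have : S ^ 2 = 1 - C ^ 2 := by linarith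
    nlinarith
  -- the first order change
  set bb : V := θ • e with hbb
  have hLf : ∀ (y : ℝ) (c : V), Lf p u (k + y • e) bb c = ⟪τ c, k⟫ + η c * (y - s c * θ) := by
    intro y c
    have ek : ⟪e, k⟫ = 0 := hek
    have τe : ⟪τ c, e⟫ = 0 := by rw [real_inner_comm]; exact heτ c
    have : Lf p u (k + y • e) bb c = ⟪off p u c, k + y • e⟫ - s c * ⟪off p u c, θ • e⟫ := rfl
    rw [this, hoff]
    simp only [inner_add_left, inner_add_right, inner_smul_left, inner_smul_right, hee, ek, τe]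
    simp
    ring
  -- sizes
  have hsz : ∀ c ∈ A, η c ^ 2 + ‖τ c‖ ^ 2 = ρ ^ 2 := fun c hc => by rw [← hn1, hA c hc]
  have hsz' : ∀ c ∈ A, η' c ^ 2 + ‖τ c + k‖ ^ 2 ≤ ρ ^ 2 := fun c hc => by
    rw [← hn2]; exact pow_le_pow_left₀ (norm_nonneg _) (hA' c hc) 2
  have hexp : ∀ c, ‖τ c + k‖ ^ 2 = ‖τ c‖ ^ 2 + 2 * ⟪τ c, k⟫ + ‖k‖ ^ 2 := fun c =>
    norm_add_sq_real _ _
  -- the threshold
  set f : V → ℝ := fun c => s c * θ - ⟪τ c, k⟫ / η c with hf
  have hpair : ∀ c₁ ∈ A, ∀ c₂ ∈ A, η c₁ < 0 → 0 < η c₂ → f c₁ < f c₂ := by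
    intro c₁ hc₁ c₂ hc₂ h1 h2
    have hne12 : c₁ ≠ c₂ := by rintro rfl; linarith
    have hdist := hS c₁ hc₁ c₂ hc₂ hne12
    have hgap := gap_ne hu p c₁ c₂ ((hA c₁ hc₁).le.trans hρ1) ((hA c₂ hc₂).le.trans hρ1) hdist
    have hsgn := hord c₁ hc₁ c₂ hc₂ hne12
    have eU : s c₂ - s c₁ = -⟪u, c₂ - c₁⟫ := by
      simp only [hs, inner_sub_right]; ring
    have eη : η c₂ - η c₁ = -⟪e, c₂ - c₁⟫ := by
      simp only [hη, inner_sub_right]; ring
    have key := pair_ineq (g := ‖k‖ ^ 2) (a₁ := -η c₁) (a₂ := η c₂) (b₁ := ⟪τ c₁, k⟫)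
      (b₂ := ⟪τ c₂, k⟫) (U := s c₂ - s c₁) (θ := θ) (η₁ := η' c₁) (η₂ := η' c₂)
      (by positivity) (by linarith) h2
      (by
        intro h0
        have : k = 0 := by
          have : ‖k‖ = 0 := by nlinarith [norm_nonneg k]
          exact norm_eq_zero.mp this
        rw [this]; simp)
      (by rw [eU]; exact neg_ne_zero.mpr hgap) hθ0 hθπ
      (by
        have a1 := hsz c₁ hc₁
        have a2 := hsz' c₁ hc₁
        rw [hexp] at a2
        unfold Pq
        nlinarith)
      (by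
        have a1 := hsz c₂ hc₂
        have a2 := hsz' c₂ hc₂
        rw [hexp] at a2
        unfold Pq
        nlinarith)
      (by
        simp only [hη', hs, hη, inner_sub_right, hcos, ← hSdef]
        ring)
      (by
        have : ⟪v, c₂ - c₁⟫ = C * ⟪u, c₂ - c₁⟫ + S * ⟪e, c₂ - c₁⟫ := by
          conv_lhs => rw [hve]
          rw [inner_add_left, inner_smul_left, inner_smul_left]; simp
        rw [this] at hsgn
        rw [hcos, ← hSdef, show -η c₁ + η c₂ = η c₂ - η c₁ by ring, eU, eη]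
        nlinarith)
      (by
        intro hg
        have eD : ‖c₂ - c₁‖ ^ 2 = (s c₂ - s c₁) ^ 2 + (η c₂ - η c₁) ^ 2 + ‖τ c₁ - τ c₂‖ ^ 2 := by
          have e1 : c₂ - c₁ = (s c₁ - s c₂) • u + (η c₁ - η c₂) • e + (τ c₁ - τ c₂) := by
            simp only [hτ, sub_smul]
            abel
          conv_lhs => rw [e1]
          have ku : ⟪τ c₁, u⟫ = 0 := by rw [real_inner_comm]; exact huτ _
          have ku2 : ⟪τ c₂, u⟫ = 0 := by rw [real_inner_comm]; exact huτ _
          have ke : ⟪τ c₁, e⟫ = 0 := by rw [real_inner_comm]; exact heτ _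
          have ke2 : ⟪τ c₂, e⟫ = 0 := by rw [real_inner_comm]; exact heτ _
          rw [← real_inner_self_eq_norm_sq, ← real_inner_self_eq_norm_sq]
          simp only [inner_add_left, inner_add_right, inner_smul_left, inner_smul_right,
            inner_sub_left, inner_sub_right, huu, hue, heu, hee, huτ, heτ, ku, ku2, ke, ke2]
          simp
          ring
        have h4 : 4 < ‖c₂ - c₁‖ ^ 2 := by nlinarith
        have a1 := hsz c₁ hc₁
        have a2 := hsz c₂ hc₂
        have cs : (⟪τ c₁, k⟫ + ⟪τ c₂, k⟫) ^ 2 ≤ ‖τ c₁ + τ c₂‖ ^ 2 * ‖k‖ ^ 2 := by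
          have := abs_real_inner_le_norm (τ c₁ + τ c₂) k
          rw [inner_add_left] at this
          have h5 := pow_le_pow_left₀ (abs_nonneg _) this 2
          rwa [sq_abs, mul_pow] at h5
        have pl := parallelogram_law_with_norm ℝ (τ c₁) (τ c₂)
        have hρ2 : ρ ^ 2 ≤ 1 := by nlinarith
        have main : 2 * (η c₁ ^ 2 + η c₂ ^ 2) + ‖τ c₁ + τ c₂‖ ^ 2 <
            (s c₂ - s c₁) ^ 2 + (-η c₁ + η c₂) ^ 2 := by nlinarith
        have := mul_lt_mul_of_pos_left main hg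
        nlinarith)
    simp only [hf]
    have e1 : ⟪τ c₁, k⟫ / -η c₁ = -(⟪τ c₁, k⟫ / η c₁) := by rw [div_neg]
    rw [e1] at key
    nlinarith
  -- choice of the translation
  obtain ⟨y, hy1, hy2⟩ := Order.exists_between_finsets
    ((A.filter (fun c => η c < 0)).image f) ((A.filter (fun c => 0 < η c)).image f)
    (by
      intro a ha b hb
      obtain ⟨c₁, hc₁, rfl⟩ := Finset.mem_image.mp ha
      obtain ⟨c₂, hc₂, rfl⟩ := Finset.mem_image.mp hb
      rw [Finset.mem_filter] at hc₁ hc₂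
      exact hpair c₁ hc₁.1 c₂ hc₂.1 hc₁.2 hc₂.2)
  have hneg : ∀ c ∈ A, η c ≠ 0 → Lf p u (k + y • e) bb c < 0 := by
    intro c hc hη0
    rw [hLf]
    rcases lt_or_gt_of_ne hη0 with h | h
    · have := hy1 (f c) (Finset.mem_image_of_mem f (Finset.mem_filter.mpr ⟨hc, h⟩))
      simp only [hf] at this
      have h3 : η c * y < η c * (s c * θ - ⟪τ c, k⟫ / η c) := mul_lt_mul_of_neg_left this h
      have h4 : η c * (⟪τ c, k⟫ / η c) = ⟪τ c, k⟫ := mul_div_cancel₀ _ hη0
      nlinarith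
    · have := hy2 (f c) (Finset.mem_image_of_mem f (Finset.mem_filter.mpr ⟨hc, h⟩))
      simp only [hf] at this
      have h3 : η c * y < η c * (s c * θ - ⟪τ c, k⟫ / η c) := mul_lt_mul_of_pos_left this h
      have h4 : η c * (⟪τ c, k⟫ / η c) = ⟪τ c, k⟫ := mul_div_cancel₀ _ hη0
      nlinarith
  have hzero : ∀ c ∈ A, η c = 0 → Lf p u (k + y • e) bb c ≤ -(‖k‖ ^ 2 + η' c ^ 2) / 2 := by
    intro c hc hη0
    rw [hLf, hη0]
    have a1 := hsz c hc
    have a2 := hsz' c hc
    rw [hexp] at a2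
    rw [hη0] at a1
    nlinarith
  have hbu : ⟪u, bb⟫ = 0 := by rw [hbb, inner_smul_right, hue]; ring
  by_cases hbad : ∃ c₀ ∈ A, η c₀ = 0 ∧ k = 0 ∧ η' c₀ = 0
  · obtain ⟨c₀, hc₀, h1, h2, h3⟩ := hbad
    obtain ⟨a', ha'⟩ := upgrade A (p := p) (u := u) (a := k + y • e) (b := bb) (c₀ := c₀)
      (by
        intro c hc hcc
        by_cases hη0 : η c = 0
        · -- then the second coordinate does not vanish
          have hne' : η' c ≠ 0 := by
            intro h4
            have hgap := gap_ne hu p c₀ c ((hA c₀ hc₀).le.trans hρ1) ((hA c hc).le.trans hρ1)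
              (hS c₀ hc₀ c hc (Ne.symm hcc))
            apply hgap
            have e1 : η' c₀ - η' c = -S * ⟪u, c - c₀⟫ + C * (η c₀ - η c) := by
              simp only [hη', hη, inner_sub_right]; ring
            rw [h3, h4, h1, hη0] at e1
            have : S * ⟪u, c - c₀⟫ = 0 := by linarith
            rcases mul_eq_zero.mp this with h | h
            · exact absurd h hS0.ne'
            · exact h
          have := hzero c hc hη0
          have h5 : 0 < η' c ^ 2 := by positivity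
          nlinarith [sq_nonneg ‖k‖]
        · exact hneg c hc hη0)
      (by
        have := hzero c₀ hc₀ h1
        nlinarith [sq_nonneg ‖k‖, sq_nonneg (η' c₀)])
      (by
        intro h
        have := hA c₀ hc₀
        rw [h, norm_zero] at this
        linarith)
    exact ⟨a', bb, hbu, ha'⟩
  · refine ⟨k + y • e, bb, hbu, fun c hc => ?_⟩
    by_cases hη0 : η c = 0
    · have h1 := hzero c hc hη0
      have h2 : 0 < ‖k‖ ^ 2 + η' c ^ 2 := by
        by_contra hcon
        apply hbad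
        refine ⟨c, hc, hη0, ?_, ?_⟩
        · have : ‖k‖ ^ 2 = 0 := by nlinarith [sq_nonneg ‖k‖, sq_nonneg (η' c)]
          exact norm_eq_zero.mp (pow_eq_zero_iff two_ne_zero |>.mp this)
        · have : η' c ^ 2 = 0 := by nlinarith [sq_nonneg ‖k‖, sq_nonneg (η' c)]
          exact pow_eq_zero_iff two_ne_zero |>.mp this
      linarith
    · exact hneg c hc hη0

end Pool.Agent.H40E9.LT
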