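import Pool.Agent.H40E9.LT.Perm

/-!
# Two lines meeting many disjoint unit balls order them in the same way, up to one pair
-/

set_option autoImplicit false

namespace Pool.Agent.H40E9.LT

open scoped RealInnerProductSpace

variable {V : Type*} [NormedAddCommGroup V] [InnerProductSpace ℝ V]

/-- the numerical conditions on the bound `C` for the cosine and the gap `g` -/
structure Num (C g : ℝ) : Prop where
  C0 : 0 < C
  C1 : C ≤ 1
  g0 : 0 ≤ g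
  far : 4 * (1 - C ^ 2) ≤ g ^ 2
  pair : ∀ m M : ℝ, 0 ≤ m → m ≤ M → (1 + C) * m ^ 2 ≤ 4 * (1 - C) → M ^ 2 ≤ 4 * (1 - C ^ 2) →
    √(4 + m ^ 2) + M / 2 < 2 * g

lemma pair_num {C g : ℝ} (hN : Num C g) {a b n : ℝ} (ha : 0 < a) (hb : 0 < b)
    (h1 : n ^ 2 ≤ 4 + a ^ 2) (h2 : n ^ 2 ≤ 4 + b ^ 2)
    (h3 : (a + C * b) ^ 2 ≤ 4 * (1 - C ^ 2)) (h4 : (b + C * a) ^ 2 ≤ 4 * (1 - C ^ 2)) :
    (a + b) * n + (a ^ 2 + b ^ 2) / 2 < 2 * g * (a + b) := by
  wlog hab : a ≤ b generalizing a b with H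
  · have := H hb ha h2 h1 h4 h3 (le_of_not_ge hab)
    linarith
  have hC0 := hN.C0
  have k1 : (1 + C) * a ^ 2 ≤ 4 * (1 - C) := by
    have e : (1 + C) * a ≤ a + C * b := by nlinarith
    have e2 : ((1 + C) * a) ^ 2 ≤ (a + C * b) ^ 2 := pow_le_pow_left₀ (by positivity) e 2
    have : (1 + C) * ((1 + C) * a ^ 2) ≤ (1 + C) * (4 * (1 - C)) := by nlinarith
    exact le_of_mul_le_mul_left this (by linarith)
  have k2 : b ^ 2 ≤ 4 * (1 - C ^ 2) := by nlinarith [mul_pos ha hb]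
  have k3 := hN.pair a b ha.le hab k1 k2
  have k4 : n ≤ √(4 + a ^ 2) := Real.le_sqrt_of_sq_le h1
  have k5 : n + b / 2 < 2 * g := by linarith
  have k6 : (a ^ 2 + b ^ 2) / 2 ≤ (a + b) * (b / 2) := by nlinarith
  nlinarith

/-- two disjoint inverted pairs are impossible -/
lemma two_pairs {S : Set V} (hS : Sep S) {p u q v : V} (h : Hit S p u) (h' : Hit S q v)
    {x y z w : V} (hx : x ∈ S) (hy : y ∈ S) (hz : z ∈ S) (hw : w ∈ S)
    {C g : ℝ} (hN : Num C g) (hC : C ≤ ⟪u, v⟫) (h1 : 0 < ⟪u, y - x⟫) (h1' : 0 < ⟪v, x - y⟫)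
    (h2 : 0 < ⟪u, w - z⟫) (h2' : 0 < ⟪v, z - w⟫)
    (hL : 2 * g ≤ ⟪u, z + w - x - y⟫) (hL' : 2 * g ≤ ⟪v, z + w - x - y⟫) : False := by
  have hg0 := hN.g0
  have hxy : x ≠ y := by rintro rfl; simp at h1
  have hzw : z ≠ w := by rintro rfl; simp at h2
  have a1 := two_pairs_half hS h h' hx hy hz hw hxy hzw h1.le h1'.le h2.le h2'.le
    (hL.trans (le_abs_self _)) (mul_nonneg (by linarith) (by linarith)) (hL'.trans (le_abs_self _))
  have e1 : ∀ t : V, ⟪t, x + y - z - w⟫ = -⟪t, z + w - x - y⟫ := by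
    intro t
    simp only [inner_sub_right, inner_add_right]; ring
  have a2 := two_pairs_half hS h h' hz hw hx hy hzw hxy h2.le h2'.le h1.le h1'.le (g := g)
    (by rw [e1, abs_neg]; exact hL.trans (le_abs_self _))
    (by rw [e1, e1, neg_mul_neg]; exact mul_nonneg (by linarith) (by linarith))
    (by rw [e1, abs_neg]; exact hL'.trans (le_abs_self _))
  have b : ∀ {x y : V}, x ∈ S → y ∈ S → 0 < ⟪u, y - x⟫ → 0 < ⟪v, x - y⟫ →
      (⟪u, y - x⟫ + ⟪v, x - y⟫) * ‖y - x‖ + (⟪u, y - x⟫ ^ 2 + ⟪v, x - y⟫ ^ 2) / 2 <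
        2 * g * (⟪u, y - x⟫ + ⟪v, x - y⟫) := by
    intro x y hx hy h1 h1'
    have r : ⟪v, y - x⟫ = -⟪v, x - y⟫ := by rw [← inner_neg_right]; congr 1; abel
    have r' : ⟪u, x - y⟫ = -⟪u, y - x⟫ := by rw [← inner_neg_right]; congr 1; abel
    have l1 := h.le4 hx hy
    have l2 := h'.le4 hx hy
    refine pair_num hN h1 h1' (by linarith) (by rw [r] at l2; nlinarith) ?_ ?_
    · have := inv_bound h.unit h'.unit hN.C0 hC (y - x) l2 h1.le (by rw [r]; linarith)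
      rwa [r, neg_neg] at this
    · have l3 := h.le4 hy hx
      have := inv_bound h'.unit h.unit hN.C0 (by rw [real_inner_comm]; exact hC) (x - y) l3 h1'.le
        (by rw [r']; linarith)
      rwa [r', neg_neg] at this
  have b1 := b hx hy h1 h1'
  have b2 := b hz hw h2 h2'
  have n1 := norm_nonneg (y - x)
  have n2 := norm_nonneg (w - z)
  rcases le_total (⟪u, w - z⟫ + ⟪v, z - w⟫) (⟪u, y - x⟫ + ⟪v, x - y⟫) with hle | hle
  · nlinarith
  · nlinarith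

/-- two lines meeting many disjoint unit balls order them in the same way, up to one pair -/
theorem inv_unique {S : Set V} (hS : Sep S) {p u q v : V} (h : Hit S p u) (h' : Hit S q v)
    {C g : ℝ} (hN : Num C g) (hC : C ≤ ⟪u, v⟫) (hg : GapLe g S)
    {x y z w : V} (hx : x ∈ S) (hy : y ∈ S) (hz : z ∈ S) (hw : w ∈ S)
    (h1 : ⟪u, x⟫ < ⟪u, y⟫) (h1' : ⟪v, y⟫ < ⟪v, x⟫) (h2 : ⟪u, z⟫ < ⟪u, w⟫)
    (h2' : ⟪v, w⟫ < ⟪v, z⟫) : x = z ∧ y = w := by
  have hC' : C ≤ ⟪v, u⟫ := by rw [real_inner_comm]; exact hC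
  -- an inverted pair is adjacent for both lines
  have adj : ∀ {a b c : V}, a ∈ S → b ∈ S → c ∈ S → ⟪u, a⟫ < ⟪u, b⟫ → ⟪v, b⟫ < ⟪v, a⟫ →
      ⟪u, a⟫ < ⟪u, c⟫ → ⟪u, c⟫ < ⟪u, b⟫ → False := by
    intro a b c ha hb hc i1 i2 i3 i4
    refine not_far_inv h.unit h'.unit hN.C0 hC hN.g0 hN.far (b - a) (h'.le4 ha hb)
      (hg p u h a ha c hc b hb i3 i4) ?_
    rw [inner_sub_right]; linarith
  have adj' : ∀ {a b c : V}, a ∈ S → b ∈ S → c ∈ S → ⟪u, a⟫ < ⟪u, b⟫ → ⟪v, b⟫ < ⟪v, a⟫ →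
      ⟪v, b⟫ < ⟪v, c⟫ → ⟪v, c⟫ < ⟪v, a⟫ → False := by
    intro a b c ha hb hc i1 i2 i3 i4
    refine not_far_inv h'.unit h.unit hN.C0 hC' hN.g0 hN.far (a - b) (h.le4 hb ha)
      (hg q v h' b hb c hc a ha i3 i4) ?_
    rw [inner_sub_right]; linarith
  by_contra hne
  -- distinct points have distinct values
  have nu : ∀ {a b : V}, a ∈ S → b ∈ S → a ≠ b → ⟪u, a⟫ < ⟪u, b⟫ ∨ ⟪u, b⟫ < ⟪u, a⟫ :=
    fun ha hb hab => lt_or_gt_of_ne (h.ne hS ha hb hab)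
  have nv : ∀ {a b : V}, a ∈ S → b ∈ S → a ≠ b → ⟪v, a⟫ < ⟪v, b⟫ ∨ ⟪v, b⟫ < ⟪v, a⟫ :=
    fun ha hb hab => lt_or_gt_of_ne (h'.ne hS ha hb hab)
  by_cases hxz : x = z
  · subst hxz
    have hyw : y ≠ w := fun h => hne ⟨rfl, h⟩
    rcases nu hy hw hyw with i | i
    · exact adj hx hw hy h2 h2' h1 i
    · exact adj hx hy hw h1 h1' h2 i
  by_cases hyw : y = w
  · subst hyw
    rcases nu hx hz hxz with i | i
    · exact adj hx hy hz h1 h1' i h2
    · exact adj hz hy hx h2 h2' i h1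
  -- a general statement with `x` before `z`
  have main : ∀ {x y z w : V}, x ∈ S → y ∈ S → z ∈ S → w ∈ S → ⟪u, x⟫ < ⟪u, y⟫ →
      ⟪v, y⟫ < ⟪v, x⟫ → ⟪u, z⟫ < ⟪u, w⟫ → ⟪v, w⟫ < ⟪v, z⟫ → x ≠ z → y ≠ w →
      ⟪u, x⟫ < ⟪u, z⟫ → False := by
    intro x y z w hx hy hz hw h1 h1' h2 h2' hxz hyw hlt
    by_cases hyz : y = z
    · subst hyz
      exact adj hx hw hy (hlt.trans h2) (h2'.trans h1') h1 h2
    have j1 : ⟪u, y⟫ < ⟪u, z⟫ := by
      rcases nu hy hz hyz with i | i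
      · exact i
      · exact (adj hx hy hz h1 h1' hlt i).elim
    have hxw : x ≠ w := by
      rintro rfl
      exact lt_irrefl _ (hlt.trans h2)
    -- `v`-order
    have j2 : ⟪v, x⟫ < ⟪v, z⟫ := by
      rcases nv hx hz hxz with i | i
      · exact i
      · exact (adj hx hz hy hlt i h1 j1).elim
    have j3 : ⟪v, x⟫ < ⟪v, w⟫ := by
      rcases nv hx hw hxw with i | i
      · exact i
      · exact (adj' hz hw hx h2 h2' i j2).elim
    have k1 := hg p u h x hx y hy z hz h1 j1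
    have k2 := hg p u h y hy z hz w hw j1 h2
    have k3 := hg q v h' y hy x hx w hw h1' j3
    have k4 := hg q v h' x hx w hw z hz j3 h2'
    rw [inner_sub_right] at k1 k2 k3 k4
    refine two_pairs hS h h' hx hy hz hw hN hC ?_ ?_ ?_ ?_ ?_ ?_ <;>
      simp only [inner_sub_right, inner_add_right] <;> linarith
  rcases nu hx hz hxz with i | i
  · exact main hx hy hz hw h1 h1' h2 h2' hxz hyw i
  · exact main hz hw hx hy h2 h2' h1 h1' (Ne.symm hxz) (Ne.symm hyw) i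

/-- enough balls to control the orders: the numbers `9`, in the plane `5` -/
def Many (V : Type*) [NormedAddCommGroup V] [InnerProductSpace ℝ V] (n : ℕ) : Prop :=
  9 ≤ n ∨ (Module.finrank ℝ V = 2 ∧ 5 ≤ n)

lemma num_gen : Num (7 / 9) (√2) := by
  have h2 : (√2 : ℝ) ^ 2 = 2 := Real.sq_sqrt (by norm_num)
  have h2' : (1.4142 : ℝ) < √2 := by
    rw [Real.lt_sqrt (by norm_num)]; norm_num
  refine ⟨by norm_num, by norm_num, by positivity, by rw [h2]; norm_num, ?_⟩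
  intro m M h0 hmM h1 h3
  have a1 : √(4 + m ^ 2) ≤ 2.1214 := by
    rw [Real.sqrt_le_left (by norm_num)]
    nlinarith
  have a2 : M ≤ 1.2572 := by nlinarith
  linarith

lemma num_plane : Num (1 / 2) (√3) := by
  have h2 : (√3 : ℝ) ^ 2 = 3 := Real.sq_sqrt (by norm_num)
  have h2' : (1.732 : ℝ) < √3 := by
    rw [Real.lt_sqrt (by norm_num)]; norm_num
  refine ⟨by norm_num, by norm_num, by positivity, by rw [h2]; norm_num, ?_⟩
  intro m M h0 hmM h1 h3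
  have a1 : √(4 + m ^ 2) ≤ 2.3095 := by
    rw [Real.sqrt_le_left (by norm_num)]
    nlinarith
  have a2 : M ≤ 1.7321 := by nlinarith
  linarith

/-- **At most one inverted pair.** -/
theorem inversions [FiniteDimensional ℝ V] (F : Finset V) (hS : Sep (F : Set V))
    (hF : Many V F.card) {p u q v : V} (h : Hit (F : Set V) p u) (h' : Hit (F : Set V) q v)
    (huv : 0 ≤ ⟪u, v⟫)
    {x y z w : V} (hx : x ∈ F) (hy : y ∈ F) (hz : z ∈ F) (hw : w ∈ F)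
    (h1 : ⟪u, x⟫ < ⟪u, y⟫) (h1' : ⟪v, y⟫ < ⟪v, x⟫) (h2 : ⟪u, z⟫ < ⟪u, w⟫)
    (h2' : ⟪v, w⟫ < ⟪v, z⟫) : x = z ∧ y = w := by
  rcases hF with hF | ⟨hV, hF⟩
  · have hg := gap_gen hS
    obtain ⟨a, ha, b, hb, -, hab⟩ := far hS hg h 4 F subset_rfl (by omega)
    have hC := angle_le h.unit h'.unit (b - a) (h'.le4 ha hb) (h.le4 ha hb) huv
      (le_trans (by positivity) hab)
    refine inv_unique hS h h' num_gen ?_ hg hx hy hz hw h1 h1' h2 h2'
    have h2 : (√2 : ℝ) ^ 2 = 2 := Real.sq_sqrt (by norm_num)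
    have hT : 32 ≤ ⟪u, b - a⟫ ^ 2 := by
      have : ((4 : ℕ) * √2) ^ 2 ≤ ⟪u, b - a⟫ ^ 2 := pow_le_pow_left₀ (by positivity) hab 2
      rw [mul_pow, h2] at this
      norm_num at this ⊢
      linarith
    have hle := inner_le_one h.unit h'.unit
    nlinarith
  · have hg := gap_plane hV hS
    obtain ⟨a, ha, b, hb, -, hab⟩ := far hS hg h 2 F subset_rfl (by omega)
    have hC := angle_le h.unit h'.unit (b - a) (h'.le4 ha hb) (h.le4 ha hb) huv
      (le_trans (by positivity) hab)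
    refine inv_unique hS h h' num_plane ?_ hg hx hy hz hw h1 h1' h2 h2'
    have h2 : (√3 : ℝ) ^ 2 = 3 := Real.sq_sqrt (by norm_num)
    have hT : 12 ≤ ⟪u, b - a⟫ ^ 2 := by
      have : ((2 : ℕ) * √3) ^ 2 ≤ ⟪u, b - a⟫ ^ 2 := pow_le_pow_left₀ (by positivity) hab 2
      rw [mul_pow, h2] at this
      norm_num at this ⊢
      linarith
    have hle := inner_le_one h.unit h'.unit
    nlinarith

end Pool.Agent.H40E9.LT
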