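import Pool.Agent.H40E9.LT.Basic

/-!
# Two lines meeting many disjoint unit balls order them in the same way, up to one pair
-/

set_option autoImplicit false

namespace Pool.Agent.H40E9.LT

open scoped RealInnerProductSpace

variable {V : Type*} [NormedAddCommGroup V] [InnerProductSpace ℝ V]

/-- the line `(p, u)` meets the unit balls with centres in `S` -/
structure Hit (S : Set V) (p u : V) : Prop where
  unit : ‖u‖ = 1
  hit : ∀ c ∈ S, ‖off p u c‖ ≤ 1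

lemma Hit.mono {S T : Set V} {p u : V} (h : Hit S p u) (hT : T ⊆ S) : Hit T p u :=
  ⟨h.unit, fun c hc => h.hit c (hT hc)⟩

lemma off_neg (p u c : V) : off p (-u) c = off p u c := by
  unfold off
  rw [inner_neg_left, neg_smul_neg]

lemma Hit.neg {S : Set V} {p u : V} (h : Hit S p u) : Hit S p (-u) :=
  ⟨by rw [norm_neg]; exact h.unit, fun c hc => by rw [off_neg]; exact h.hit c hc⟩

/-- the unit balls with centres in `S` are pairwise disjoint -/
def Sep (S : Set V) : Prop := ∀ x ∈ S, ∀ y ∈ S, x ≠ y → 2 < ‖y - x‖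

omit [InnerProductSpace ℝ V] in
lemma Sep.mono {S T : Set V} (h : Sep S) (hT : T ⊆ S) : Sep T :=
  fun x hx y hy => h x (hT hx) y (hT hy)

/-- three distinct balls met by a line: the first and the last are at distance at least `g` -/
def GapLe (g : ℝ) (S : Set V) : Prop := ∀ p u : V, Hit S p u → ∀ x ∈ S, ∀ y ∈ S, ∀ z ∈ S,
  ⟪u, x⟫ < ⟪u, y⟫ → ⟪u, y⟫ < ⟪u, z⟫ → g ≤ ⟪u, z - x⟫

lemma gap_gen {S : Set V} (hS : Sep S) : GapLe (√2) S := by
  intro p u h x hx y hy z hz hxy hyz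
  have n1 : x ≠ y := by rintro rfl; exact lt_irrefl _ hxy
  have n2 : y ≠ z := by rintro rfl; exact lt_irrefl _ hyz
  have n3 : x ≠ z := by rintro rfl; exact lt_irrefl _ (hxy.trans hyz)
  have := gap_two h.unit p x y z (h.hit x hx) (h.hit y hy) (h.hit z hz) (hS x hx y hy n1)
    (hS y hy z hz n2) (hS x hx z hz n3) (by rw [inner_sub_right]; linarith)
    (by rw [inner_sub_right]; linarith)
  refine Real.sqrt_le_iff.mpr ⟨by rw [inner_sub_right]; linarith, this.le⟩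

lemma exists_axis (hV : Module.finrank ℝ V = 2) {u : V} (hu : ‖u‖ = 1) :
    ∃ e : V, ‖e‖ = 1 ∧ ∀ w : V, ⟪u, w⟫ = 0 → ∃ t : ℝ, w = t • e := by
  have hu0 : u ≠ 0 := by rintro rfl; simp at hu
  have : Fact (Module.finrank ℝ V = 1 + 1) := ⟨hV⟩
  have h1 : Module.finrank ℝ (ℝ ∙ u)ᗮ = 1 := Submodule.finrank_orthogonal_span_singleton hu0
  obtain ⟨e, he0, he⟩ := finrank_eq_one_iff'.mp h1
  have hn : ‖(e : V)‖ ≠ 0 := by
    rw [norm_ne_zero_iff]; exact fun h => he0 (Subtype.ext h)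
  refine ⟨(‖(e : V)‖)⁻¹ • (e : V), ?_, ?_⟩
  · rw [norm_smul, norm_inv, norm_norm, inv_mul_cancel₀ hn]
  · intro w hw
    obtain ⟨c, hc⟩ := he ⟨w, Submodule.mem_orthogonal_singleton_iff_inner_right.mpr hw⟩
    refine ⟨c * ‖(e : V)‖, ?_⟩
    rw [smul_smul, mul_assoc, mul_inv_cancel₀ hn, mul_one]
    have := congrArg Subtype.val hc
    simpa using this.symm

lemma gap_plane (hV : Module.finrank ℝ V = 2) {S : Set V} (hS : Sep S) : GapLe (√3) S := by
  intro p u h x hx y hy z hz hxy hyz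
  have n1 : x ≠ y := by rintro rfl; exact lt_irrefl _ hxy
  have n2 : y ≠ z := by rintro rfl; exact lt_irrefl _ hyz
  have n3 : x ≠ z := by rintro rfl; exact lt_irrefl _ (hxy.trans hyz)
  have d1 := hS x hx y hy n1
  have d2 := hS y hy z hz n2
  have d3 := hS x hx z hz n3
  obtain ⟨e, he, hw⟩ := exists_axis hV h.unit
  obtain ⟨a, ha⟩ := hw _ (inner_off h.unit p x)
  obtain ⟨b, hb⟩ := hw _ (inner_off h.unit p y)
  obtain ⟨c, hc⟩ := hw _ (inner_off h.unit p z)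
  have nb : ∀ (w : V) (t : ℝ), off p u w = t • e → ‖off p u w‖ ≤ 1 → |t| ≤ 1 := by
    intro w t h1 h2
    rwa [h1, norm_smul, he, mul_one, Real.norm_eq_abs] at h2
  have ha1 := abs_le.mp (nb x a ha (h.hit x hx))
  have hb1 := abs_le.mp (nb y b hb (h.hit y hy))
  have hc1 := abs_le.mp (nb z c hc (h.hit z hz))
  have nd : ∀ (w w' : V) (t t' : ℝ), off p u w = t • e → off p u w' = t' • e →
      (t - t') ^ 2 = ‖w' - w‖ ^ 2 - ⟪u, w' - w⟫ ^ 2 := by
    intro w w' t t' h1 h2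
    rw [← norm_off_sub h.unit p w w', h1, h2, ← sub_smul, norm_smul, he, mul_one,
      Real.norm_eq_abs, sq_abs]
  have e1 := nd x y a b ha hb
  have e2 := nd y z b c hb hc
  have e3 := nd x z a c ha hc
  rw [inner_sub_right] at e1 e2 e3 ⊢
  by_contra hlt
  rw [not_le, Real.lt_sqrt (by linarith)] at hlt
  have f1 : 1 < (a - b) ^ 2 := by nlinarith
  have f2 : 1 < (b - c) ^ 2 := by nlinarith
  have f3 : 1 < (a - c) ^ 2 := by nlinarith
  have g1 : 1 < |a - b| := by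
    rw [← sq_abs] at f1; nlinarith [abs_nonneg (a - b)]
  have g2 : 1 < |b - c| := by
    rw [← sq_abs] at f2; nlinarith [abs_nonneg (b - c)]
  have g3 : 1 < |a - c| := by
    rw [← sq_abs] at f3; nlinarith [abs_nonneg (a - c)]
  rcases lt_abs.mp g1 with g1 | g1 <;> rcases lt_abs.mp g2 with g2 | g2 <;>
    rcases lt_abs.mp g3 with g3 | g3 <;> linarith

/-- the basic inequality for two lines -/
lemma cross_sq {u v : V} (hu : ‖u‖ = 1) (hv : ‖v‖ = 1) (z : V) (hz : ‖z‖ ^ 2 - ⟪v, z⟫ ^ 2 ≤ 4) :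
    (⟪u, z⟫ - ⟪u, v⟫ * ⟪v, z⟫) ^ 2 ≤ 4 * (1 - ⟪u, v⟫ ^ 2) := by
  have h1 : ‖z - ⟪v, z⟫ • v‖ ^ 2 ≤ 4 := by rw [norm_sub_proj hv]; exact hz
  have h2 : ‖u - ⟪v, u⟫ • v‖ ^ 2 = 1 - ⟪u, v⟫ ^ 2 := by
    rw [norm_sub_proj hv, hu, real_inner_comm]; ring
  have h3 : ⟪u, z⟫ - ⟪u, v⟫ * ⟪v, z⟫ = ⟪u - ⟪v, u⟫ • v, z - ⟪v, z⟫ • v⟫ := by
    simp only [inner_sub_left, inner_sub_right, inner_smul_left, inner_smul_right,
      real_inner_self_eq_norm_sq, hv, real_inner_comm v u]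
    simp
  rw [h3]
  have h4 := abs_real_inner_le_norm (u - ⟪v, u⟫ • v) (z - ⟪v, z⟫ • v)
  have h5 : ⟪u - ⟪v, u⟫ • v, z - ⟪v, z⟫ • v⟫ ^ 2 ≤
      (‖u - ⟪v, u⟫ • v‖ * ‖z - ⟪v, z⟫ • v‖) ^ 2 := by
    rw [← sq_abs ⟪u - ⟪v, u⟫ • v, z - ⟪v, z⟫ • v⟫]
    exact pow_le_pow_left₀ (abs_nonneg _) h4 2
  rw [mul_pow, h2] at h5
  have h6 : 0 ≤ 1 - ⟪u, v⟫ ^ 2 := by rw [← h2]; positivity
  nlinarith

lemma inner_le_one {u v : V} (hu : ‖u‖ = 1) (hv : ‖v‖ = 1) : ⟪u, v⟫ ≤ 1 := by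
  have := real_inner_le_norm u v
  rw [hu, hv] at this
  linarith

/-- the angle of two lines which meet two balls far apart -/
lemma angle_le {u v : V} (hu : ‖u‖ = 1) (hv : ‖v‖ = 1) (z : V) (hz : ‖z‖ ^ 2 - ⟪v, z⟫ ^ 2 ≤ 4)
    (hz' : ‖z‖ ^ 2 - ⟪u, z⟫ ^ 2 ≤ 4) (hC : 0 ≤ ⟪u, v⟫) (hT : 0 ≤ ⟪u, z⟫) :
    ⟪u, z⟫ ^ 2 * (1 - ⟪u, v⟫) ≤ 4 * (1 + ⟪u, v⟫) := by
  have h1 := cross_sq hu hv z hz
  have h2 := cross_sq hv hu z hz'
  rw [real_inner_comm u v] at h2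
  have hC1 := inner_le_one hu hv
  set C := ⟪u, v⟫ with hCdef
  set T := ⟪u, z⟫
  set T' := ⟪v, z⟫
  obtain ⟨s, hs0, hs⟩ : ∃ s : ℝ, 0 ≤ s ∧ s ^ 2 = 1 - C ^ 2 :=
    ⟨√(1 - C ^ 2), Real.sqrt_nonneg _, Real.sq_sqrt (by nlinarith)⟩
  have a1 : T - C * T' ≤ 2 * s := by
    refine abs_le_of_sq_le_sq' ?_ (by positivity) |>.2
    nlinarith
  have a2 : T' - C * T ≤ 2 * s := by
    refine abs_le_of_sq_le_sq' ?_ (by positivity) |>.2
    nlinarith
  have a3 : T * s ^ 2 ≤ 2 * s * (1 + C) := by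
    rw [hs]; nlinarith
  rcases hs0.eq_or_lt with h0 | h0
  · have : C = 1 := by
      have : 1 - C ^ 2 = 0 := by rw [← hs, ← h0]; ring
      nlinarith
    rw [this]; norm_num
  · have a4 : T * s ≤ 2 * (1 + C) := by
      have : s * (T * s) ≤ s * (2 * (1 + C)) := by nlinarith
      exact le_of_mul_le_mul_left this h0
    have a5 : (T * s) ^ 2 ≤ (2 * (1 + C)) ^ 2 := pow_le_pow_left₀ (by positivity) a4 2
    rw [mul_pow, hs] at a5
    have a6 : (1 + C) * (T ^ 2 * (1 - C)) ≤ (1 + C) * (4 * (1 + C)) := by nlinarith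
    exact le_of_mul_le_mul_left a6 (by linarith)

lemma Hit.ne {S : Set V} {p u : V} (h : Hit S p u) (hS : Sep S) {x y : V} (hx : x ∈ S) (hy : y ∈ S)
    (hxy : x ≠ y) : ⟪u, x⟫ ≠ ⟪u, y⟫ := by
  intro h1
  refine gap_ne h.unit p x y (h.hit x hx) (h.hit y hy) (hS x hx y hy hxy) ?_
  rw [inner_sub_right, h1, sub_self]

lemma Hit.le4 {S : Set V} {p u : V} (h : Hit S p u) {x y : V} (hx : x ∈ S) (hy : y ∈ S) :
    ‖y - x‖ ^ 2 - ⟪u, y - x⟫ ^ 2 ≤ 4 := by
  have := dist_le_gap h.unit p x y (h.hit x hx) (h.hit y hy)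
  linarith

/-- many balls on a line are far apart -/
lemma far {g : ℝ} {S : Set V} (hS : Sep S) (hg : GapLe g S) {p u : V} (h : Hit S p u)
    (m : ℕ) (F : Finset V) (hF : (F : Set V) ⊆ S) (hm : 2 * m + 1 ≤ F.card) :
    ∃ x ∈ F, ∃ y ∈ F, (∀ z ∈ F, ⟪u, x⟫ ≤ ⟪u, z⟫) ∧ m * g ≤ ⟪u, y - x⟫ := by
  classical
  induction m generalizing F with
  | zero =>
    obtain ⟨x, hx, hmin⟩ := F.exists_min_image (fun x => ⟪u, x⟫)
      (Finset.card_pos.mp (by omega))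
    exact ⟨x, hx, x, hx, hmin, by simp⟩
  | succ m ih =>
    obtain ⟨x, hx, hmin⟩ := F.exists_min_image (fun x => ⟪u, x⟫)
      (Finset.card_pos.mp (by omega))
    have c1 : (F.erase x).card = F.card - 1 := Finset.card_erase_of_mem hx
    obtain ⟨y, hy, hymin⟩ := (F.erase x).exists_min_image (fun x => ⟪u, x⟫)
      (Finset.card_pos.mp (by omega))
    have c2 : ((F.erase x).erase y).card = F.card - 2 := by
      rw [Finset.card_erase_of_mem hy, c1]; omega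
    obtain ⟨z, hz, w, hw, hzmin, hzw⟩ := ih ((F.erase x).erase y)
      (fun a ha => hF (Finset.mem_of_mem_erase (Finset.mem_of_mem_erase ha))) (by omega)
    have hyF := Finset.mem_of_mem_erase hy
    have hzF := Finset.mem_of_mem_erase (Finset.mem_of_mem_erase hz)
    have hwF := Finset.mem_of_mem_erase (Finset.mem_of_mem_erase hw)
    have hxy : ⟪u, x⟫ < ⟪u, y⟫ :=
      lt_of_le_of_ne (hmin y hyF) (h.ne hS (hF hx) (hF hyF) (Finset.ne_of_mem_erase hy).symm)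
    have hyz : ⟪u, y⟫ < ⟪u, z⟫ :=
      lt_of_le_of_ne (hymin z (Finset.mem_of_mem_erase hz))
        (h.ne hS (hF hyF) (hF hzF) (Finset.ne_of_mem_erase hz).symm)
    have := hg p u h x (hF hx) y (hF hyF) z (hF hzF) hxy hyz
    refine ⟨x, hx, w, hwF, hmin, ?_⟩
    rw [inner_sub_right] at this hzw ⊢
    push_cast
    linarith

/-- an inverted pair has small gaps -/
lemma inv_bound {u v : V} (hu : ‖u‖ = 1) (hv : ‖v‖ = 1) {C : ℝ} (hC0 : 0 < C)
    (hC : C ≤ ⟪u, v⟫) (z : V) (hz : ‖z‖ ^ 2 - ⟪v, z⟫ ^ 2 ≤ 4) (h1 : 0 ≤ ⟪u, z⟫)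
    (h2 : ⟪v, z⟫ < 0) : (⟪u, z⟫ + C * -⟪v, z⟫) ^ 2 ≤ 4 * (1 - C ^ 2) := by
  have h := cross_sq hu hv z hz
  have h3 : ⟪u, z⟫ + C * -⟪v, z⟫ ≤ ⟪u, z⟫ - ⟪u, v⟫ * ⟪v, z⟫ := by nlinarith
  have h4 : 0 ≤ ⟪u, z⟫ + C * -⟪v, z⟫ := by nlinarith
  have h5 : (⟪u, z⟫ + C * -⟪v, z⟫) ^ 2 ≤ (⟪u, z⟫ - ⟪u, v⟫ * ⟪v, z⟫) ^ 2 :=
    pow_le_pow_left₀ h4 h3 2
  nlinarith

/-- an inverted pair is adjacent -/
lemma not_far_inv {u v : V} (hu : ‖u‖ = 1) (hv : ‖v‖ = 1) {C g : ℝ} (hC0 : 0 < C)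
    (hC : C ≤ ⟪u, v⟫) (hg0 : 0 ≤ g) (hg : 4 * (1 - C ^ 2) ≤ g ^ 2) (z : V)
    (hz : ‖z‖ ^ 2 - ⟪v, z⟫ ^ 2 ≤ 4) (h1 : g ≤ ⟪u, z⟫) (h2 : ⟪v, z⟫ < 0) : False := by
  have h := inv_bound hu hv hC0 hC z hz (hg0.trans h1) h2
  have h3 : g < ⟪u, z⟫ + C * -⟪v, z⟫ := by nlinarith
  have h4 : g ^ 2 < (⟪u, z⟫ + C * -⟪v, z⟫) ^ 2 := pow_lt_pow_left₀ h3 hg0 two_ne_zero
  linarith

/-- one half of the analysis of two disjoint inverted pairs -/
lemma two_pairs_half {S : Set V} (hS : Sep S) {p u q v : V} (h : Hit S p u) (h' : Hit S q v)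
    {x y z w : V} (hx : x ∈ S) (hy : y ∈ S) (hz : z ∈ S) (hw : w ∈ S) (hxy : x ≠ y) (hzw : z ≠ w)
    {g : ℝ} (h1 : 0 ≤ ⟪u, y - x⟫) (h1' : 0 ≤ ⟪v, x - y⟫) (h2 : 0 ≤ ⟪u, w - z⟫)
    (h2' : 0 ≤ ⟪v, z - w⟫)
    (hL : 2 * g ≤ |⟪u, z + w - x - y⟫|) (hs : 0 ≤ ⟪u, z + w - x - y⟫ * ⟪v, z + w - x - y⟫)
    (hL' : 2 * g ≤ |⟪v, z + w - x - y⟫|) :
    2 * g * (⟪u, y - x⟫ + ⟪v, x - y⟫) ≤ (⟪u, w - z⟫ + ⟪v, z - w⟫) * ‖y - x‖ +
      (⟪u, y - x⟫ ^ 2 + ⟪v, x - y⟫ ^ 2) / 2 := by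
  have key : (off p u z + off p u w - (off q v z + off q v w)) -
      (off p u x + off p u y - (off q v x + off q v y)) =
      ⟪u, z + w - x - y⟫ • u - ⟪v, z + w - x - y⟫ • v := by
    have e : ∀ a b : V, (off a b z + off a b w) - (off a b x + off a b y) =
        -(z + w - x - y) + ⟪b, z + w - x - y⟫ • b := by
      intro a b
      have e1 := off_sub a b z x
      have e2 := off_sub a b w y
      have e3 : ⟪b, z + w - x - y⟫ = -⟪b, x - z⟫ - ⟪b, y - w⟫ := by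
        simp only [inner_sub_right, inner_add_right]; ring
      rw [e3, sub_smul, neg_smul]
      have : (off a b z + off a b w) - (off a b x + off a b y) =
        (off a b z - off a b x) + (off a b w - off a b y) := by abel
      rw [this, e1, e2]
      abel
    have e1 := e p u
    have e2 := e q v
    have : (off p u z + off p u w - (off q v z + off q v w)) -
      (off p u x + off p u y - (off q v x + off q v y)) =
      ((off p u z + off p u w) - (off p u x + off p u y)) -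
      ((off q v z + off q v w) - (off q v x + off q v y)) := by abel
    rw [this, e1, e2]
    abel
  have dot := congrArg (fun t => ⟪t, y - x⟫) key
  beta_reduce at dot
  rw [inner_sub_left (off p u z + off p u w - (off q v z + off q v w)),
    inner_sub_left (off p u z + off p u w), inner_sub_left (off p u x + off p u y),
    inner_sub_left (⟪u, z + w - x - y⟫ • u), real_inner_smul_left, real_inner_smul_left] at dot
  -- bounds
  have small : ∀ {a b : V}, Hit S a b → |⟪off a b x + off a b y, y - x⟫| ≤ ⟪b, y - x⟫ ^ 2 / 2 := by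
    intro a b hab
    have n1 := hab.hit x hx
    have n2 := hab.hit y hy
    have e : ⟪off a b x + off a b y, y - x⟫ = ‖off a b x‖ ^ 2 - ‖off a b y‖ ^ 2 := by
      conv_lhs => rw [sub_eq a b x y]
      rw [inner_add_right, inner_smul_right, inner_add_left (off a b x) (off a b y) b,
        off_inner hab.unit, off_inner hab.unit]
      simp only [inner_add_left, inner_sub_right, real_inner_self_eq_norm_sq]
      rw [real_inner_comm (off a b x) (off a b y)]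
      ring
    have s := norm_off_add hab.unit a x y
    have s0 : 0 ≤ ‖off a b x + off a b y‖ ^ 2 := by positivity
    have d := hS x hx y hy hxy
    have d2 : 4 < ‖y - x‖ ^ 2 := by nlinarith
    have m1 : ‖off a b x‖ ^ 2 ≤ 1 := by nlinarith [norm_nonneg (off a b x)]
    have m2 : ‖off a b y‖ ^ 2 ≤ 1 := by nlinarith [norm_nonneg (off a b y)]
    rw [e, abs_le]
    constructor <;> nlinarith
  have big : ∀ {a b : V}, Hit S a b → |⟪off a b z + off a b w, y - x⟫| ≤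
      |⟪b, w - z⟫| * ‖y - x‖ := by
    intro a b hab
    refine (abs_real_inner_le_norm _ _).trans ?_
    refine mul_le_mul_of_nonneg_right ?_ (norm_nonneg _)
    exact (add_lt_gap' hab.unit a z w (hab.hit z hz) (hab.hit w hw) (hS z hz w hw hzw)).le
  have b1 := abs_le.mp (small h)
  have b2 := abs_le.mp (small h')
  have b3 := abs_le.mp (big h)
  have b4 := abs_le.mp (big h')
  have r1 : ⟪v, y - x⟫ = -⟪v, x - y⟫ := by rw [← inner_neg_right]; congr 1; abel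
  have r2 : |⟪v, w - z⟫| = ⟪v, z - w⟫ := by
    rw [show ⟪v, w - z⟫ = -⟪v, z - w⟫ by rw [← inner_neg_right]; congr 1; abel, abs_neg,
      abs_of_nonneg h2']
  rw [r1] at dot b2
  rw [abs_of_nonneg h2] at b3
  rw [r2] at b4
  have hn := norm_nonneg (y - x)
  -- sign analysis
  set Lu := ⟪u, z + w - x - y⟫
  set Lv := ⟪v, z + w - x - y⟫
  rcases le_or_gt 0 g with hg | hg
  · rcases le_or_gt 0 Lu with hLu | hLu
    · rw [abs_of_nonneg hLu] at hL
      have hLv : 0 ≤ Lv ∨ g = 0 := by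
        rcases hg.eq_or_lt with h0 | h0
        · exact Or.inr h0.symm
        · left
          by_contra hneg
          rw [not_le] at hneg
          nlinarith
      rcases hLv with hLv | hg0
      · rw [abs_of_nonneg hLv] at hL'
        nlinarith
      · subst hg0
        have : 0 ≤ (⟪u, w - z⟫ + ⟪v, z - w⟫) * ‖y - x‖ := by positivity
        nlinarith [sq_nonneg ⟪u, y - x⟫, sq_nonneg ⟪v, x - y⟫]
    · rw [abs_of_neg hLu] at hL
      have hLv : Lv ≤ 0 := by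
        by_contra hneg
        rw [not_le] at hneg
        nlinarith
      rw [abs_of_nonpos hLv] at hL'
      nlinarith
  · have : 0 ≤ (⟪u, w - z⟫ + ⟪v, z - w⟫) * ‖y - x‖ := by positivity
    nlinarith [sq_nonneg ⟪u, y - x⟫, sq_nonneg ⟪v, x - y⟫]

end Pool.Agent.H40E9.LT
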