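import Mathlib

/-!
# Strict concavity of `arcsin (√P₁ + √P₂)`
-/

set_option autoImplicit false

namespace Pool.Agent.H40E9.LT

lemma core_alg {g x y p q W : ℝ} (hg : 0 < g) (hx : 0 < x) (hy : 0 < y)
    (hW : g * (x - y) ^ 2 + (p + q) ^ 2 < g * W) :
    (x + y) * (p / x + q / y) ^ 2 < W * ((g * x ^ 2 + p ^ 2) / x ^ 3 + (g * y ^ 2 + q ^ 2) / y ^ 3) := by
  have hA : 0 < (g * x ^ 2 + p ^ 2) * y ^ 3 + (g * y ^ 2 + q ^ 2) * x ^ 3 := by positivity
  have l1 : g * (p * y + q * x) ^ 2 ≤ (g * (x - y) ^ 2 + (p + q) ^ 2) * (g * x ^ 2 + p ^ 2) := by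
    nlinarith [sq_nonneg (g * x * (x - y) + p * (p + q))]
  have l2 : g * (p * y + q * x) ^ 2 ≤ (g * (x - y) ^ 2 + (p + q) ^ 2) * (g * y ^ 2 + q ^ 2) := by
    nlinarith [sq_nonneg (g * y * (y - x) + q * (p + q))]
  have l3 : g * (x * y * (x + y)) * (p * y + q * x) ^ 2 ≤
      (g * (x - y) ^ 2 + (p + q) ^ 2) *
        ((g * x ^ 2 + p ^ 2) * y ^ 3 + (g * y ^ 2 + q ^ 2) * x ^ 3) := by
    have m1 := mul_le_mul_of_nonneg_right l1 (by positivity : 0 ≤ y ^ 3)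
    have m2 := mul_le_mul_of_nonneg_right l2 (by positivity : 0 ≤ x ^ 3)
    have m3 : x * y * (x + y) ≤ x ^ 3 + y ^ 3 := by
      nlinarith [mul_nonneg (by positivity : 0 ≤ x + y) (sq_nonneg (x - y))]
    have m4 := mul_le_mul_of_nonneg_left m3 (by positivity : 0 ≤ g * (p * y + q * x) ^ 2)
    nlinarith
  have l4 : g * (x * y * (x + y)) * (p * y + q * x) ^ 2 <
      g * W * ((g * x ^ 2 + p ^ 2) * y ^ 3 + (g * y ^ 2 + q ^ 2) * x ^ 3) :=
    l3.trans_lt (mul_lt_mul_of_pos_right hW hA)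
  have l5 : (x * y * (x + y)) * (p * y + q * x) ^ 2 <
      W * ((g * x ^ 2 + p ^ 2) * y ^ 3 + (g * y ^ 2 + q ^ 2) * x ^ 3) := by
    have : g * ((x * y * (x + y)) * (p * y + q * x) ^ 2) <
      g * (W * ((g * x ^ 2 + p ^ 2) * y ^ 3 + (g * y ^ 2 + q ^ 2) * x ^ 3)) := by linarith
    exact lt_of_mul_lt_mul_left this hg.le
  have e1 : (x + y) * (p / x + q / y) ^ 2 =
      (x * y * (x + y)) * (p * y + q * x) ^ 2 / (x ^ 3 * y ^ 3) := by
    field_simp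
  have e2 : W * ((g * x ^ 2 + p ^ 2) / x ^ 3 + (g * y ^ 2 + q ^ 2) / y ^ 3) =
      W * ((g * x ^ 2 + p ^ 2) * y ^ 3 + (g * y ^ 2 + q ^ 2) * x ^ 3) / (x ^ 3 * y ^ 3) := by
    field_simp
  rw [e1, e2]
  exact div_lt_div_of_pos_right l5 (by positivity)

/-- the quadratic polynomial -/
def Pq (g a b t : ℝ) : ℝ := a ^ 2 - 2 * b * t - g * t ^ 2

lemma hasDerivAt_Pq (g a b t : ℝ) : HasDerivAt (Pq g a b) (-2 * (b + g * t)) t := by
  have h := (((hasDerivAt_const t (a ^ 2)).sub ((hasDerivAt_id' t).const_mul (2 * b))).sub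
    (((hasDerivAt_id' t).pow 2).const_mul g))
  have e : -2 * (b + g * t) = 0 - 2 * b * 1 - g * ((2 : ℕ) * t ^ (2 - 1) * 1) := by
    push_cast; ring
  rw [e]
  exact h

lemma Pq_pos {g a b t : ℝ} (hg : 0 < g) (ha : 0 < a) (h1 : 0 ≤ Pq g a b 1) (ht0 : 0 ≤ t)
    (ht1 : t < 1) : 0 < Pq g a b t := by
  unfold Pq at *
  nlinarith [mul_nonneg ht0 h1, mul_pos (sub_pos.mpr ht1) (pow_pos ha 2),
    mul_nonneg (mul_nonneg hg.le ht0) (sub_pos.mpr ht1).le]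

lemma hasDerivAt_sqrtPq {g a b t : ℝ} (h : 0 < Pq g a b t) :
    HasDerivAt (fun t => √(Pq g a b t)) (-((b + g * t) / √(Pq g a b t))) t := by
  have := (hasDerivAt_Pq g a b t).sqrt h.ne'
  convert this using 1
  have : √(Pq g a b t) ≠ 0 := (Real.sqrt_pos.mpr h).ne'
  field_simp

lemma hasDerivAt_quot {g a b t : ℝ} (h : 0 < Pq g a b t) :
    HasDerivAt (fun t => -((b + g * t) / √(Pq g a b t)))
      (-((g * √(Pq g a b t) ^ 2 + (b + g * t) ^ 2) / √(Pq g a b t) ^ 3)) t := by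
  have hs : √(Pq g a b t) ≠ 0 := (Real.sqrt_pos.mpr h).ne'
  have h1 : HasDerivAt (fun t => b + g * t) g t := by
    have := ((hasDerivAt_id t).const_mul g).const_add b
    simpa using this
  have := (h1.div (hasDerivAt_sqrtPq h) hs).neg
  refine this.congr_deriv ?_
  set w := √(Pq g a b t)
  field_simp
  ring

/-- **The tangent inequality.** -/
theorem arcsin_tangent {g a₁ a₂ b₁ b₂ : ℝ} (hg : 0 < g) (ha₁ : 0 < a₁) (ha₂ : 0 < a₂)
    (h₁ : 0 ≤ Pq g a₁ b₁ 1) (h₂ : 0 ≤ Pq g a₂ b₂ 1)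
    (hd : 2 * g * (a₁ ^ 2 + a₂ ^ 2) + (b₁ + b₂) ^ 2 < g) :
    Real.arcsin (√(Pq g a₁ b₁ 1) + √(Pq g a₂ b₂ 1)) <
      Real.arcsin (a₁ + a₂) - (b₁ / a₁ + b₂ / a₂) / √(1 - (a₁ + a₂) ^ 2) := by
  set x : ℝ → ℝ := fun t => √(Pq g a₁ b₁ t) with hx
  set y : ℝ → ℝ := fun t => √(Pq g a₂ b₂ t) with hy
  set s : ℝ → ℝ := fun t => x t + y t with hs
  -- bounds
  have hP : ∀ t ∈ Set.Ico (0 : ℝ) 1, 0 < Pq g a₁ b₁ t ∧ 0 < Pq g a₂ b₂ t := fun t ht =>
    ⟨Pq_pos hg ha₁ h₁ ht.1 ht.2, Pq_pos hg ha₂ h₂ ht.1 ht.2⟩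
  have hP' : ∀ t ∈ Set.Icc (0 : ℝ) 1, 0 ≤ Pq g a₁ b₁ t ∧ 0 ≤ Pq g a₂ b₂ t := by
    intro t ht
    rcases ht.2.lt_or_eq with h | h
    · exact ⟨(hP t ⟨ht.1, h⟩).1.le, (hP t ⟨ht.1, h⟩).2.le⟩
    · rw [h]; exact ⟨h₁, h₂⟩
  have hW : ∀ t ∈ Set.Icc (0 : ℝ) 1,
      g * (x t - y t) ^ 2 + ((b₁ + g * t) + (b₂ + g * t)) ^ 2 < g * (1 - s t ^ 2) := by
    intro t ht
    obtain ⟨p1, p2⟩ := hP' t ht
    have e1 : x t ^ 2 = Pq g a₁ b₁ t := Real.sq_sqrt p1
    have e2 : y t ^ 2 = Pq g a₂ b₂ t := Real.sq_sqrt p2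
    have : g * (1 - s t ^ 2) = g - g * (2 * x t ^ 2 + 2 * y t ^ 2) + g * (x t - y t) ^ 2 := by
      simp only [hs]; ring
    rw [this, e1, e2]
    unfold Pq
    nlinarith
  have hs1 : ∀ t ∈ Set.Icc (0 : ℝ) 1, s t ^ 2 < 1 := by
    intro t ht
    have := hW t ht
    have h0 : 0 < g * (1 - s t ^ 2) := lt_of_le_of_lt (by positivity) this
    nlinarith [(mul_pos_iff_of_pos_left hg).mp h0]
  have hs0 : ∀ t, 0 ≤ s t := fun t => add_nonneg (Real.sqrt_nonneg _) (Real.sqrt_nonneg _)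
  -- first derivative
  set s1 : ℝ → ℝ := fun t => -((b₁ + g * t) / x t) + -((b₂ + g * t) / y t) with hs1def
  have ds : ∀ t ∈ Set.Ico (0 : ℝ) 1, HasDerivAt s (s1 t) t := fun t ht =>
    (hasDerivAt_sqrtPq (hP t ht).1).add (hasDerivAt_sqrtPq (hP t ht).2)
  have dψ : ∀ t ∈ Set.Ico (0 : ℝ) 1,
      HasDerivAt (fun t => Real.arcsin (s t)) (s1 t / √(1 - s t ^ 2)) t := by
    intro t ht
    have h1 := hs1 t ⟨ht.1, ht.2.le⟩
    have hlt : s t < 1 := by nlinarith [hs0 t]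
    have hgt : -1 < s t := by linarith [hs0 t]
    have := (Real.hasDerivAt_arcsin hgt.ne' hlt.ne).comp t (ds t ht)
    refine this.congr_deriv ?_
    ring
  -- second derivative
  have ds1 : ∀ t ∈ Set.Ico (0 : ℝ) 1, HasDerivAt s1
      (-((g * x t ^ 2 + (b₁ + g * t) ^ 2) / x t ^ 3) +
        -((g * y t ^ 2 + (b₂ + g * t) ^ 2) / y t ^ 3)) t := fun t ht =>
    (hasDerivAt_quot (hP t ht).1).add (hasDerivAt_quot (hP t ht).2)
  have hconc : StrictConcaveOn ℝ (Set.Icc 0 1) (fun t => Real.arcsin (s t)) := by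
    refine strictConcaveOn_of_deriv2_neg (convex_Icc 0 1) ?_ ?_
    · refine (Real.continuous_arcsin.comp ?_).continuousOn
      have : ∀ a b, Continuous (fun t => √(Pq g a b t)) := by
        intro a b
        refine Real.continuous_sqrt.comp ?_
        unfold Pq
        fun_prop
      exact (this a₁ b₁).add (this a₂ b₂)
    · intro t ht
      rw [interior_Icc] at ht
      have htI : t ∈ Set.Ico (0 : ℝ) 1 := ⟨ht.1.le, ht.2⟩
      have htc : t ∈ Set.Icc (0 : ℝ) 1 := ⟨ht.1.le, ht.2.le⟩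
      have hw : 0 < 1 - s t ^ 2 := by linarith [hs1 t htc]
      have hsq : 0 < √(1 - s t ^ 2) := Real.sqrt_pos.mpr hw
      have hd2 : HasDerivAt (fun t => s1 t / √(1 - s t ^ 2))
          (((-((g * x t ^ 2 + (b₁ + g * t) ^ 2) / x t ^ 3) +
            -((g * y t ^ 2 + (b₂ + g * t) ^ 2) / y t ^ 3)) * √(1 - s t ^ 2) -
            s1 t * (-(2 * s t * s1 t) / (2 * √(1 - s t ^ 2)))) / √(1 - s t ^ 2) ^ 2) t := by
        refine (ds1 t htI).div ?_ hsq.ne'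
        refine HasDerivAt.sqrt ?_ hw.ne'
        have := ((ds t htI).pow 2).const_sub 1
        refine this.congr_deriv ?_
        push_cast
        ring
      have hev : deriv (fun t => Real.arcsin (s t)) =ᶠ[nhds t] fun t => s1 t / √(1 - s t ^ 2) := by
        filter_upwards [Ioo_mem_nhds ht.1 ht.2] with r hr
        exact (dψ r ⟨hr.1.le, hr.2⟩).deriv
      show deriv (deriv fun t => Real.arcsin (s t)) t < 0
      rw [hev.deriv_eq, hd2.deriv]
      refine div_neg_of_neg_of_pos ?_ (by positivity)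
      have hxp : 0 < x t := Real.sqrt_pos.mpr (hP t htI).1
      have hyp : 0 < y t := Real.sqrt_pos.mpr (hP t htI).2
      have key := core_alg hg hxp hyp (hW t htc)
      have e : s1 t ^ 2 = ((b₁ + g * t) / x t + (b₂ + g * t) / y t) ^ 2 := by
        simp only [hs1def]; ring
      have e3 : s1 t * (-(2 * s t * s1 t) / (2 * √(1 - s t ^ 2))) =
          -(s t * s1 t ^ 2) / √(1 - s t ^ 2) := by
        field_simp
      rw [e3, e]
      set w := √(1 - s t ^ 2) with hwdef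
      have hw2 : w ^ 2 = 1 - s t ^ 2 := Real.sq_sqrt hw.le
      set A := (g * x t ^ 2 + (b₁ + g * t) ^ 2) / x t ^ 3 + (g * y t ^ 2 + (b₂ + g * t) ^ 2) / y t ^ 3
      set B := ((b₁ + g * t) / x t + (b₂ + g * t) / y t) ^ 2
      have : (-((g * x t ^ 2 + (b₁ + g * t) ^ 2) / x t ^ 3) +
            -((g * y t ^ 2 + (b₂ + g * t) ^ 2) / y t ^ 3)) * w - -(s t * B) / w =
            -(w ^ 2 * A - s t * B) / w := by
        have hA : -((g * x t ^ 2 + (b₁ + g * t) ^ 2) / x t ^ 3) +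
            -((g * y t ^ 2 + (b₂ + g * t) ^ 2) / y t ^ 3) = -A := by simp only [A]; ring
        rw [hA]
        field_simp
        ring
      rw [this]
      refine div_neg_of_neg_of_pos ?_ hsq
      rw [hw2]
      have : s t * B = (x t + y t) * B := rfl
      linarith
  have hfin := hconc.slope_lt_of_hasDerivAt (x := 0) (y := 1) (by simp) (by simp) one_pos
    (dψ 0 (by simp))
  rw [slope_def_field] at hfin
  have x0 : x 0 = a₁ := by
    simp only [hx, Pq]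
    norm_num
    exact Real.sqrt_sq ha₁.le
  have y0 : y 0 = a₂ := by
    simp only [hy, Pq]
    norm_num
    exact Real.sqrt_sq ha₂.le
  simp only [hs, hs1def, x0, y0, sub_zero, div_one, mul_zero, add_zero] at hfin
  simp only [hx, hy] at hfin
  have e : (-(b₁ / a₁) + -(b₂ / a₂)) / √(1 - (a₁ + a₂) ^ 2) =
    -((b₁ / a₁ + b₂ / a₂) / √(1 - (a₁ + a₂) ^ 2)) := by ring
  rw [e] at hfin
  linarith

end Pool.Agent.H40E9.LT
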