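import Pool.Agent.H40E9.LT.Perm
import Pool.Agent.H40E9.LT.Real

/-!
# Moving a line towards another one: the first order improvement
-/

set_option autoImplicit false

namespace Pool.Agent.H40E9.LT

open scoped RealInnerProductSpace

/-- scaled form of `arcsin_tangent` -/
lemma arcsin_tangent' {g a₁ a₂ b₁ b₂ U d : ℝ} (hg : 0 < g) (ha₁ : 0 < a₁) (ha₂ : 0 < a₂)
    (hd0 : 0 < d) (hU : 0 < U) (hdU : d ^ 2 = U ^ 2 + (a₁ + a₂) ^ 2)
    (h₁ : 0 ≤ Pq g a₁ b₁ 1) (h₂ : 0 ≤ Pq g a₂ b₂ 1)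
    (hd : 2 * g * (a₁ ^ 2 + a₂ ^ 2) + (b₁ + b₂) ^ 2 < g * d ^ 2) :
    Real.arcsin ((√(Pq g a₁ b₁ 1) + √(Pq g a₂ b₂ 1)) / d) <
      Real.arcsin ((a₁ + a₂) / d) - (b₁ / a₁ + b₂ / a₂) / U := by
  have e : ∀ a b : ℝ, Pq (g / d ^ 2) (a / d) (b / d ^ 2) 1 = Pq g a b 1 / d ^ 2 := by
    intro a b
    unfold Pq
    field_simp
  have e2 : ∀ a b : ℝ, √(Pq (g / d ^ 2) (a / d) (b / d ^ 2) 1) = √(Pq g a b 1) / d := by
    intro a b
    rw [e, Real.sqrt_div' _ (by positivity), Real.sqrt_sq hd0.le]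
  have := arcsin_tangent (g := g / d ^ 2) (a₁ := a₁ / d) (a₂ := a₂ / d) (b₁ := b₁ / d ^ 2)
    (b₂ := b₂ / d ^ 2) (by positivity) (by positivity) (by positivity) (by rw [e]; positivity)
    (by rw [e]; positivity) (by
      have : 2 * (g / d ^ 2) * ((a₁ / d) ^ 2 + (a₂ / d) ^ 2) + (b₁ / d ^ 2 + b₂ / d ^ 2) ^ 2 =
        (2 * g * (a₁ ^ 2 + a₂ ^ 2) + (b₁ + b₂) ^ 2) / d ^ 4 := by
        field_simp
      rw [this, div_lt_div_iff₀ (by positivity) (by positivity)]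
      nlinarith [pow_pos hd0 2])
  rw [e2, e2, ← add_div, ← add_div] at this
  have e3 : √(1 - ((a₁ + a₂) / d) ^ 2) = U / d := by
    have : 1 - ((a₁ + a₂) / d) ^ 2 = (U / d) ^ 2 := by
      field_simp
      linarith
    rw [this, Real.sqrt_sq (by positivity)]
  rw [e3] at this
  have e4 : (b₁ / d ^ 2 / (a₁ / d) + b₂ / d ^ 2 / (a₂ / d)) / (U / d) =
      (b₁ / a₁ + b₂ / a₂) / U := by
    field_simp
  rwa [e4] at this

/-- the pair inequality -/
lemma pair_ineq {g a₁ a₂ b₁ b₂ U θ η₁ η₂ : ℝ} (hg : 0 ≤ g) (ha₁ : 0 < a₁) (ha₂ : 0 < a₂)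
    (hg0 : g = 0 → b₁ = 0 ∧ b₂ = 0) (hU : U ≠ 0) (hθ0 : 0 < θ) (hθπ : θ < Real.pi)
    (h₁ : η₁ ^ 2 ≤ Pq g a₁ b₁ 1) (h₂ : η₂ ^ 2 ≤ Pq g a₂ b₂ 1)
    (hE : η₂ - η₁ = -Real.sin θ * U + Real.cos θ * (a₁ + a₂))
    (hs : 0 < U * (Real.cos θ * U + Real.sin θ * (a₁ + a₂)))
    (hd : 0 < g → 2 * g * (a₁ ^ 2 + a₂ ^ 2) + (b₁ + b₂) ^ 2 < g * (U ^ 2 + (a₁ + a₂) ^ 2)) :
    b₁ / a₁ + b₂ / a₂ < U * θ := by
  set s₀ := a₁ + a₂ with hs₀
  have hs₀0 : 0 < s₀ := by positivity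
  obtain ⟨d, hd0, hd2⟩ : ∃ d : ℝ, 0 < d ∧ d ^ 2 = U ^ 2 + s₀ ^ 2 :=
    ⟨√(U ^ 2 + s₀ ^ 2), Real.sqrt_pos.mpr (by positivity), Real.sq_sqrt (by positivity)⟩
  have hU2 : 0 < U ^ 2 := by positivity
  have hs₀d : s₀ < d := by nlinarith
  set ψ₀ := Real.arcsin (s₀ / d) with hψ₀
  set s₁ := √(Pq g a₁ b₁ 1) + √(Pq g a₂ b₂ 1) with hs₁
  set ψ₁ := Real.arcsin (s₁ / d) with hψ₁
  have hsin : Real.sin ψ₀ = s₀ / d := by
    apply Real.sin_arcsin
    · exact le_trans (by norm_num) (div_nonneg hs₀0.le hd0.le)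
    · exact (div_le_one hd0).mpr hs₀d.le
  have hψ₀0 : 0 < ψ₀ := Real.arcsin_pos.mpr (by positivity)
  have hψ₀1 : ψ₀ < Real.pi / 2 := Real.arcsin_lt_pi_div_two.mpr ((div_lt_one hd0).mpr hs₀d)
  have hcos : Real.cos ψ₀ = |U| / d := by
    rw [hψ₀, Real.cos_arcsin]
    have : 1 - (s₀ / d) ^ 2 = (|U| / d) ^ 2 := by
      rw [div_pow, div_pow, sq_abs]
      field_simp
      linarith
    rw [this, Real.sqrt_sq (by positivity)]
  have hEs : (-Real.sin θ * U + Real.cos θ * s₀) / d ≤ s₁ / d := by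
    apply div_le_div_of_nonneg_right _ hd0.le
    rw [← hE]
    have m1 : |η₁| ≤ √(Pq g a₁ b₁ 1) := by
      rw [← Real.sqrt_sq_eq_abs]; exact Real.sqrt_le_sqrt h₁
    have m2 : |η₂| ≤ √(Pq g a₂ b₂ 1) := by
      rw [← Real.sqrt_sq_eq_abs]; exact Real.sqrt_le_sqrt h₂
    linarith [le_abs_self η₂, neg_abs_le η₁]
  have p₁ : 0 ≤ Pq g a₁ b₁ 1 := le_trans (sq_nonneg _) h₁
  have p₂ : 0 ≤ Pq g a₂ b₂ 1 := le_trans (sq_nonneg _) h₂
  have hpi := Real.pi_pos
  rcases lt_or_gt_of_ne hU with hneg | hpos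
  · -- `U < 0`
    rw [abs_of_neg hneg] at hcos
    have hc : 0 < Real.cos (ψ₀ + θ) := by
      rw [Real.cos_add, hsin, hcos]
      have : Real.cos θ * U + Real.sin θ * s₀ < 0 := by nlinarith
      have e : -U / d * Real.cos θ - s₀ / d * Real.sin θ =
        -(Real.cos θ * U + Real.sin θ * s₀) / d := by ring
      rw [e]
      exact div_pos (by linarith) hd0
    have hlt : ψ₀ + θ < Real.pi / 2 := by
      by_contra hcon
      rw [not_lt] at hcon
      exact absurd hc (not_lt.mpr (Real.cos_nonpos_of_pi_div_two_le_of_le hcon (by linarith)))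
    have hle : ψ₀ + θ ≤ ψ₁ := by
      have e1 : Real.sin (ψ₀ + θ) = (-Real.sin θ * U + Real.cos θ * s₀) / d := by
        rw [Real.sin_add, hsin, hcos]; ring
      have e2 : ψ₀ + θ = Real.arcsin (Real.sin (ψ₀ + θ)) :=
        (Real.arcsin_sin (by linarith) hlt.le).symm
      rw [e2, e1]
      exact Real.monotone_arcsin hEs
    rcases hg.eq_or_lt with h0 | h0
    · exfalso
      obtain ⟨hb1, hb2⟩ := hg0 h0.symm
      have : s₁ = s₀ := by
        simp only [hs₁, Pq, ← h0, hb1, hb2, hs₀]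
        norm_num
        rw [Real.sqrt_sq ha₁.le, Real.sqrt_sq ha₂.le]
      rw [hψ₁, this] at hle
      linarith
    · have := arcsin_tangent' (U := -U) h0 ha₁ ha₂ hd0 (by linarith) (by rw [neg_sq]; exact hd2)
        p₁ p₂ (by rw [hd2]; exact hd h0)
      have h3 : (b₁ / a₁ + b₂ / a₂) / (-U) < -θ := by linarith
      rw [div_lt_iff₀ (by linarith)] at h3
      linarith
  · rw [abs_of_pos hpos] at hcos
    rcases hg.eq_or_lt with h0 | h0
    · obtain ⟨hb1, hb2⟩ := hg0 h0.symm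
      rw [hb1, hb2]
      simp only [zero_div, add_zero]
      positivity
    have hc : 0 < Real.cos (ψ₀ - θ) := by
      rw [Real.cos_sub, hsin, hcos]
      have : 0 < Real.cos θ * U + Real.sin θ * s₀ := by
        by_contra hcon
        rw [not_lt] at hcon
        nlinarith
      have e : U / d * Real.cos θ + s₀ / d * Real.sin θ =
        (Real.cos θ * U + Real.sin θ * s₀) / d := by ring
      rw [e]
      exact div_pos (by linarith) hd0
    have hgt : -(Real.pi / 2) < ψ₀ - θ := by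
      by_contra hcon
      rw [not_lt] at hcon
      have : Real.cos (ψ₀ - θ) ≤ 0 := by
        rw [← Real.cos_neg]
        exact Real.cos_nonpos_of_pi_div_two_le_of_le (by linarith) (by linarith)
      linarith
    have hle : ψ₀ - θ ≤ ψ₁ := by
      have e1 : Real.sin (ψ₀ - θ) = (-Real.sin θ * U + Real.cos θ * s₀) / d := by
        rw [Real.sin_sub, hsin, hcos]; ring
      have e2 : ψ₀ - θ = Real.arcsin (Real.sin (ψ₀ - θ)) :=
        (Real.arcsin_sin hgt.le (by linarith)).symm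
      rw [e2, e1]
      exact Real.monotone_arcsin hEs
    have := arcsin_tangent' (U := U) h0 ha₁ ha₂ hd0 hpos hd2 p₁ p₂ (by rw [hd2]; exact hd h0)
    have h3 : (b₁ / a₁ + b₂ / a₂) / U < θ := by linarith
    rw [div_lt_iff₀ hpos] at h3
    linarith

variable {V : Type*} [NormedAddCommGroup V] [InnerProductSpace ℝ V]

/-- the derivative of half the squared distance of `c` from the line `(p, u)` in the direction
`(a, b)` -/
noncomputable def Lf (p u a b c : V) : ℝ := ⟪off p u c, a⟫ - ⟪u, p - c⟫ * ⟪off p u c, b⟫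

/-- one zero can be removed -/
lemma upgrade (A : Finset V) {p u a b c₀ : V} (h : ∀ c ∈ A, c ≠ c₀ → Lf p u a b c < 0)
    (h0 : Lf p u a b c₀ ≤ 0) (hn : off p u c₀ ≠ 0) :
    ∃ a' : V, ∀ c ∈ A, Lf p u a' b c < 0 := by
  have e : ∀ (ε : ℝ) (c : V), Lf p u (a - ε • off p u c₀) b c =
      Lf p u a b c - ε * ⟪off p u c, off p u c₀⟫ := by
    intro ε c
    unfold Lf
    rw [inner_sub_right, inner_smul_right]; ring
  have ev : ∀ᶠ ε : ℝ in nhdsWithin 0 (Set.Ioi 0), ∀ c ∈ A,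
      Lf p u (a - ε • off p u c₀) b c < 0 := by
    rw [Filter.eventually_all_finset]
    intro c hc
    by_cases hcc : c = c₀
    · filter_upwards [self_mem_nhdsWithin] with ε hε
      rw [e, hcc, real_inner_self_eq_norm_sq]
      have : 0 < ε * ‖off p u c₀‖ ^ 2 := mul_pos hε (by positivity)
      linarith
    · have hcont : Filter.Tendsto (fun ε : ℝ => Lf p u (a - ε • off p u c₀) b c) (nhds 0)
          (nhds (Lf p u a b c)) := by
        have : Continuous (fun ε : ℝ => Lf p u (a - ε • off p u c₀) b c) := by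
          simp only [e]; fun_prop
        have := this.tendsto 0
        simpa using this
      exact (hcont.eventually_lt_const (h c hc hcc)).filter_mono nhdsWithin_le_nhds
  obtain ⟨ε, hε⟩ := ev.exists
  exact ⟨_, hε⟩

end Pool.Agent.H40E9.LT
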